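import Mathlib

/-!
# A finite template solved by AIP that no `E_{3^p} × NAE` maps to

*The template.*  An integer `x` gets the colour `x mod 27`; if `x` is `0` or `1` modulo `3`, write
`x`, respectively `x - 1`, as `3 ^ j * w` with `w` prime to `3`, and record also `j mod 3` and
`w mod 27`.  The relation `Rel` of the template consists of the colours of the triples of integers
with sum `1`.  By construction there is a homomorphism from `Z` to the template (`x` goes to the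
colour of `4 * x - 1`, which is neither `0` nor `1`), so AIP solves `PCSP(1in3, B)`.

*The obstruction.*  We show that no homomorphism from `Z × NAE` to the template is periodic.
After an affine change of variables it respects residues modulo `27`.  Look at the integers
`3 * n` and `1 + 3 * n`.  At the first scale (`n` prime to `3`) the recorded unit parts `V n`
satisfy `V (n + 3) - V n = 3` modulo `9`.  The relation forces this unit slope to pass from one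
scale to the next one: if `n + n' = - 3 * m`, then the three colours of `n, n', m` satisfy
`V n + V n' = - 3 * V m` modulo `27`, except when `m` lies in one class modulo `3`, the centre of
the next scale.  So the unit slope is visible at every scale, and `V` has no period `3 ^ p`.
-/

set_option autoImplicit false

namespace Pool.Agent.Results.MP_981e77_lc.FiniteTemplatesFail

/-! ### Structures with one ternary relation -/

/-- `h` is a homomorphism from the structure with relation `RX` to the structure with relation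
`RY`: it sends every tuple of `RX` to a tuple of `RY`. -/
def IsHom {X Y : Type} (RX : X → X → X → Prop) (RY : Y → Y → Y → Prop) (h : X → Y) : Prop :=
  ∀ a b c, RX a b c → RY (h a) (h b) (h c)

/-- There is a homomorphism from the structure with relation `RX` to the structure with relation
`RY`. -/
def HasHom {X Y : Type} (RX : X → X → X → Prop) (RY : Y → Y → Y → Prop) : Prop :=
  ∃ h : X → Y, IsHom RX RY h

/-- The relation of `1in3`, on the domain `{0, 1}`. -/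
def OneInThree (a b c : Fin 2) : Prop :=
  (a = 1 ∧ b = 0 ∧ c = 0) ∨ (a = 0 ∧ b = 1 ∧ c = 0) ∨ (a = 0 ∧ b = 0 ∧ c = 1)

/-- The relation of `NAE`, on the domain `{0, 1}`. -/
def NAE (a b c : Fin 2) : Prop := ¬ (a = b ∧ b = c)

/-- The relation of `E_m`, on the domain `{0, ..., m - 1}`. -/
def E (m : ℕ) (x y z : Fin m) : Prop := x.val + y.val + z.val ≡ 1 [MOD m]

/-- The relation of the product of two structures. -/
def ProdRel {X Y : Type} (RX : X → X → X → Prop) (RY : Y → Y → Y → Prop) (a b c : X × Y) : Prop :=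
  RX a.1 b.1 c.1 ∧ RY a.2 b.2 c.2

open Classical in
/-- The affine integer programming relaxation AIP for the template with relation `RA` accepts the
instance with relation `RX`.  The integer variables are `u x a` for an element `x` of the instance
and an element `a` of the template, and `w t s` for a tuple `t` of the instance and a tuple `s` of
the template. -/
def AIPAccepts {X A : Type} [Fintype A] (RX : X → X → X → Prop) (RA : A → A → A → Prop) : Prop :=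
  ∃ (u : X → A → ℤ) (w : {t : Fin 3 → X // RX (t 0) (t 1) (t 2)} →
      {s : Fin 3 → A // RA (s 0) (s 1) (s 2)} → ℤ),
    (∀ x, ∑ a, u x a = 1) ∧ (∀ t, ∑ s, w t s = 1) ∧
      ∀ t (i : Fin 3) (a : A), u (t.1 i) a = ∑ s, if s.1 i = a then w t s else 0

/-- AIP solves `PCSP(A, B)`: every finite instance accepted by AIP for `A` has a homomorphism
to `B`. -/
def AIPSolves {A B : Type} [Fintype A] (RA : A → A → A → Prop) (RB : B → B → B → Prop) : Prop :=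
  ∀ (X : Type) [Finite X] (RX : X → X → X → Prop), AIPAccepts RX RA → HasHom RX RB

/-! ### Three-adic decompositions of integers -/

/-- `y = 3 ^ j * w` with `w` not divisible by `3`. -/
def Dec (y : ℤ) (j : ℕ) (w : ℤ) : Prop := y = 3 ^ j * w ∧ ¬ (3 : ℤ) ∣ w

lemma exists_dec {y : ℤ} (hy : y ≠ 0) : ∃ j w, Dec y j w := by
  obtain ⟨c, hc, hnd⟩ := (Int.finiteMultiplicity_iff.2 ⟨by norm_num, hy⟩ :
    FiniteMultiplicity (3 : ℤ) y).exists_eq_pow_mul_and_not_dvd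
  exact ⟨_, c, hc, hnd⟩

lemma dec_unique {y w w' : ℤ} {j j' : ℕ} (h : Dec y j w) (h' : Dec y j' w') :
    j = j' ∧ w = w' := by
  obtain ⟨h1, h2⟩ := h
  obtain ⟨h3, h4⟩ := h'
  rcases lt_trichotomy j j' with hlt | heq | hgt
  · exfalso
    obtain ⟨k, rfl⟩ := Nat.exists_eq_add_of_lt hlt
    apply h2
    have h5 : (3 : ℤ) ^ j * w = 3 ^ j * (3 * (3 ^ k * w')) := by
      rw [← h1, h3]; ring
    have h6 := mul_left_cancel₀ (pow_ne_zero j (by norm_num : (3 : ℤ) ≠ 0)) h5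
    exact ⟨_, h6⟩
  · subst heq
    refine ⟨rfl, ?_⟩
    exact mul_left_cancel₀ (pow_ne_zero j (by norm_num : (3 : ℤ) ≠ 0)) (h1.symm.trans h3)
  · exfalso
    obtain ⟨k, rfl⟩ := Nat.exists_eq_add_of_lt hgt
    apply h4
    have h5 : (3 : ℤ) ^ j' * w' = 3 ^ j' * (3 * (3 ^ k * w)) := by
      rw [← h3, h1]; ring
    have h6 := mul_left_cancel₀ (pow_ne_zero j' (by norm_num : (3 : ℤ) ≠ 0)) h5
    exact ⟨_, h6⟩

lemma dec_add_lt {y1 y2 y3 w1 w2 w3 : ℤ} {j1 j2 j3 : ℕ} (h1 : Dec y1 j1 w1)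
    (h2 : Dec y2 j2 w2) (h3 : Dec y3 j3 w3) (hs : y1 + y2 + y3 = 0)
    (hlt : j1 < j2) (hj : j1 % 3 = j2 % 3) : j3 = j1 ∧ (w3 + w1) % 27 = 0 := by
  obtain ⟨k, rfl⟩ : ∃ k, j2 = j1 + 3 + k := ⟨j2 - (j1 + 3), by omega⟩
  have hd : Dec y3 j1 (-(w1 + 27 * (3 ^ k * w2))) := by
    refine ⟨?_, ?_⟩
    · have : y3 = -(y1 + y2) := by linarith
      rw [this, h1.1, h2.1]; ring
    · intro h
      apply h1.2
      have h4 : (3 : ℤ) ∣ w1 + 27 * (3 ^ k * w2) := by simpa using (dvd_neg.2 h)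
      have h5 : (3 : ℤ) ∣ 27 * (3 ^ k * w2) := Dvd.dvd.mul_right (by norm_num) _
      exact (Int.dvd_iff_dvd_of_dvd_add h4).2 h5
  obtain ⟨h5, h6⟩ := dec_unique h3 hd
  refine ⟨h5, ?_⟩
  generalize (3 : ℤ) ^ k * w2 = z at h6
  omega

lemma dec_add_eq {y1 y2 y3 w1 w2 w3 : ℤ} {j j3 : ℕ} (h1 : Dec y1 j w1)
    (h2 : Dec y2 j w2) (h3 : Dec y3 j3 w3) (hs : y1 + y2 + y3 = 0)
    {k : ℕ} {v : ℤ} (hv : w1 + w2 = 3 ^ k * v) (hnv : ¬ (3 : ℤ) ∣ v) :
    j3 = j + k ∧ w3 = - v := by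
  have hd : Dec y3 (j + k) (-v) := by
    refine ⟨?_, by simpa using hnv⟩
    have : y3 = -(y1 + y2) := by linarith
    rw [this, h1.1, h2.1, ← mul_add, hv]; ring
  exact dec_unique h3 hd

/-- The colour of a nonzero integer `y = 3 ^ j * w` is `(j mod 3, w mod 27)`; `Tri` says that the
three colours are those of three nonzero integers with sum `0`. -/
def Tri (i1 v1 i2 v2 i3 v3 : ℤ) : Prop :=
  ∃ (y1 y2 y3 w1 w2 w3 : ℤ) (j1 j2 j3 : ℕ), Dec y1 j1 w1 ∧ Dec y2 j2 w2 ∧ Dec y3 j3 w3 ∧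
    y1 + y2 + y3 = 0 ∧ ((j1 : ℤ) - i1) % 3 = 0 ∧ ((j2 : ℤ) - i2) % 3 = 0 ∧
    ((j3 : ℤ) - i3) % 3 = 0 ∧ (w1 - v1) % 27 = 0 ∧ (w2 - v2) % 27 = 0 ∧ (w3 - v3) % 27 = 0

lemma Tri.swap {i1 v1 i2 v2 i3 v3 : ℤ} (h : Tri i1 v1 i2 v2 i3 v3) : Tri i1 v1 i3 v3 i2 v2 := by
  obtain ⟨y1, y2, y3, w1, w2, w3, j1, j2, j3, a, b, c, d, e1, e2, e3, f1, f2, f3⟩ := h
  exact ⟨y1, y3, y2, w1, w3, w2, j1, j3, j2, a, c, b, by linarith, e1, e3, e2, f1, f3, f2⟩

lemma Tri.cross {i1 v1 i2 v2 i3 v3 : ℤ} (h : Tri i1 v1 i2 v2 i3 v3) (hi : (i1 - i2) % 3 = 0)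
    (h3 : (v1 + v2) % 3 = 0) (h9 : (v1 + v2) % 9 ≠ 0) :
    ((i3 - i1 - 1) % 3 = 0 ∧ (v1 + v2 + 3 * v3) % 27 = 0) ∨
    ((i3 - i1) % 3 = 0 ∧ ((v3 + v1) % 27 = 0 ∨ (v3 + v2) % 27 = 0)) := by
  obtain ⟨y1, y2, y3, w1, w2, w3, j1, j2, j3, a, b, c, d, e1, e2, e3, f1, f2, f3⟩ := h
  rcases lt_trichotomy j1 j2 with hlt | heq | hgt
  · right
    obtain ⟨g1, g2⟩ := dec_add_lt a b c d hlt (by omega)
    omega
  · left
    subst heq
    obtain ⟨v, hv⟩ : ∃ v, w1 + w2 = 3 ^ 1 * v := ⟨(w1 + w2) / 3, by omega⟩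
    obtain ⟨g1, g2⟩ := dec_add_eq a b c d hv (by omega)
    omega
  · right
    obtain ⟨g1, g2⟩ := dec_add_lt b a c (by linarith) hgt (by omega)
    omega

lemma Tri.level {i1 v1 i2 v2 i3 v3 : ℤ} (h : Tri i1 v1 i2 v2 i3 v3) (hi : (i1 - i2) % 3 = 0)
    (h0 : v1 % 3 ≠ 0) (h12 : (v1 - v2) % 3 = 0) (h13 : (v1 - v3) % 3 = 0) :
    (v1 + v2 + v3) % 27 = 0 := by
  obtain ⟨y1, y2, y3, w1, w2, w3, j1, j2, j3, a, b, c, d, e1, e2, e3, f1, f2, f3⟩ := h
  rcases lt_trichotomy j1 j2 with hlt | heq | hgt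
  · obtain ⟨g1, g2⟩ := dec_add_lt a b c d hlt (by omega)
    omega
  · subst heq
    obtain ⟨g1, g2⟩ := dec_add_eq a b c d (k := 0) (v := w1 + w2) (by ring) (by omega)
    omega
  · obtain ⟨g1, g2⟩ := dec_add_lt b a c (by linarith) hgt (by omega)
    omega

/-! ### The slope invariant -/

/-- The compatibility condition for colourings of two copies of the integers. -/
def Hyp (I0 V0 I1 V1 : ℤ → Fin 2 → ℤ) : Prop :=
  ∀ n n' n'' s t u, n + n' + n'' = 0 → NAE s t u →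
    Tri (I0 n s) (V0 n s) (I0 n' t) (V0 n' t) (I1 n'' u) (V1 n'' u)

/-- At the integers prime to `3`, the index is `i` and the unit part has slope `1` modulo `9`. -/
def Good (i : ℤ) (I0 V0 I1 V1 : ℤ → Fin 2 → ℤ) : Prop :=
  (∀ n s, n % 3 ≠ 0 → (I0 n s - i) % 3 = 0 ∧ (V0 n s - n) % 3 = 0 ∧
    (I1 n s - i) % 3 = 0 ∧ (V1 n s - n) % 3 = 0) ∧
  ∀ n n' s t, n % 3 ≠ 0 → (n - n') % 3 = 0 →
    (V0 n s - V0 n' t - (n - n')) % 9 = 0 ∧ (V1 n s - V1 n' t - (n - n')) % 9 = 0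

lemma nae_a (u : Fin 2) : NAE 1 0 u := by
  intro h
  exact absurd h.1 (by decide)

lemma nae_b (u : Fin 2) : NAE 1 u 0 := by
  rintro ⟨h1, h2⟩
  exact absurd (h1.trans h2) (by decide)

lemma arith_cross {i j v w v' w' x : ℤ} (h1 : v % 3 = 1) (h2 : w % 3 = 2) (h3 : v' % 3 = 1)
    (h4 : w' % 3 = 2) (d1 : (v' - v - 3) % 9 = 0) (d2 : (w' - w + 3) % 9 = 0)
    (t1 : ((j - i - 1) % 3 = 0 ∧ (v + w + 3 * x) % 27 = 0) ∨
      ((j - i) % 3 = 0 ∧ ((x + v) % 27 = 0 ∨ (x + w) % 27 = 0)))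
    (t2 : ((j - i - 1) % 3 = 0 ∧ (v' + w' + 3 * x) % 27 = 0) ∨
      ((j - i) % 3 = 0 ∧ ((x + v') % 27 = 0 ∨ (x + w') % 27 = 0))) :
    (j - i - 1) % 3 = 0 ∧ (v + w + 3 * x) % 27 = 0 := by
  rcases t1 with t1 | ⟨t1, t1' | t1'⟩
  · exact t1
  · exfalso
    rcases t2 with ⟨t2, -⟩ | ⟨-, t2 | t2⟩
    · omega
    · omega
    · omega
  · exfalso
    rcases t2 with ⟨t2, -⟩ | ⟨-, t2 | t2⟩
    · omega
    · omega
    · omega

lemma arith_three {a b c d x y : ℤ} (e1 : (b - a - x) % 27 = 0) (e2 : (c - b - x) % 27 = 0)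
    (e3 : (c - b - y) % 27 = 0) (e4 : (d - c - y) % 27 = 0) (h : (b - a - 3) % 9 = 0) :
    (d - a - 9) % 27 = 0 := by
  omega

section Step

variable {i : ℤ} {I0 V0 I1 V1 : ℤ → Fin 2 → ℤ}

lemma sum00 (hG : Good i I0 V0 I1 V1) {c : ℤ} (hc : V0 1 0 + V0 2 0 - 3 = 3 * c)
    (n n' : ℤ) (s t : Fin 2) (hn : n % 3 = 1) (hn' : n' % 3 = 2) :
    (V0 n s + V0 n' t - 3 * c - n - n') % 9 = 0 := by
  have h1 := (hG.2 n 1 s 0 (by omega) (by omega)).1
  have h2 := (hG.2 n' 2 t 0 (by omega) (by omega)).1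
  omega

lemma sum01 (hH : Hyp I0 V0 I1 V1) (hG : Good i I0 V0 I1 V1) {c : ℤ}
    (hc : V0 1 0 + V0 2 0 - 3 = 3 * c)
    (n n' : ℤ) (s t : Fin 2) (hn : n % 3 = 1) (hn' : n' % 3 = 2) :
    (V0 n s + V1 n' t - 3 * c - n - n') % 9 = 0 := by
  have h1 := (hG.2 n 1 s 0 (by omega) (by omega)).1
  have hN : NAE t (1 - t) t := by
    intro h
    revert h
    fin_cases t <;> simp
  have hT := hH 2 (-2 - n') n' t (1 - t) t (by ring) hN
  have g1 := hG.1 2 t (by norm_num)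
  have g2 := hG.1 (-2 - n') (1 - t) (by omega)
  have g3 := hG.1 n' t (by omega)
  have h2 := hT.level (by omega) (by omega) (by omega) (by omega)
  have h3 := (hG.2 2 2 t 0 (by omega) (by omega)).1
  have h4 := (hG.2 (-2 - n') 2 (1 - t) 0 (by omega) (by omega)).1
  have h5 := (hG.1 2 0 (by norm_num)).2.1
  clear g1 g2 g3 hT hN
  omega

lemma third1 (hH : Hyp I0 V0 I1 V1) (hG : Good i I0 V0 I1 V1) {c : ℤ}
    (hc : V0 1 0 + V0 2 0 - 3 = 3 * c) (m n n' : ℤ) (u : Fin 2)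
    (hm : (m - c) % 3 ≠ 0) (hn : n % 3 = 1) (hn' : n' % 3 = 2) (hs : n + n' + 3 * m = 0) :
    (I1 (3 * m) u - i - 1) % 3 = 0 ∧ (V0 n 1 + V0 n' 0 + 3 * V1 (3 * m) u) % 27 = 0 := by
  have a1 := sum00 hG hc n n' 1 0 hn hn'
  have a2 := sum00 hG hc (n + 3) (n' - 3) 1 0 (by omega) (by omega)
  obtain ⟨g1, k1, -, -⟩ := hG.1 n 1 (by omega)
  obtain ⟨g2, k2, -, -⟩ := hG.1 n' 0 (by omega)
  obtain ⟨g3, k3, -, -⟩ := hG.1 (n + 3) 1 (by omega)
  obtain ⟨g4, k4, -, -⟩ := hG.1 (n' - 3) 0 (by omega)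
  have t1 := (hH n n' (3 * m) 1 0 u hs (nae_a u)).cross (by omega) (by omega) (by omega)
  have t2 := (hH (n + 3) (n' - 3) (3 * m) 1 0 u (by linarith) (nae_a u)).cross
    (by omega) (by omega) (by omega)
  have d1 := (hG.2 (n + 3) n 1 1 (by omega) (by omega)).1
  have d2 := (hG.2 (n' - 3) n' 0 0 (by omega) (by omega)).1
  have r1 : (I1 (3 * m) u - I0 n 1 - 1) % 3 = (I1 (3 * m) u - i - 1) % 3 := by omega
  have r2 : (I1 (3 * m) u - I0 (n + 3) 1 - 1) % 3 = (I1 (3 * m) u - i - 1) % 3 := by omega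
  have r3 : (I1 (3 * m) u - I0 n 1) % 3 = (I1 (3 * m) u - i) % 3 := by omega
  have r4 : (I1 (3 * m) u - I0 (n + 3) 1) % 3 = (I1 (3 * m) u - i) % 3 := by omega
  rw [r1, r3] at t1
  rw [r2, r4] at t2
  exact arith_cross (by omega) (by omega) (by omega) (by omega) (by omega) (by omega) t1 t2

lemma third0 (hH : Hyp I0 V0 I1 V1) (hG : Good i I0 V0 I1 V1) {c : ℤ}
    (hc : V0 1 0 + V0 2 0 - 3 = 3 * c) (m n n' : ℤ) (u : Fin 2)
    (hm : (m - c) % 3 ≠ 0) (hn : n % 3 = 1) (hn' : n' % 3 = 2) (hs : n + n' + 3 * m = 0) :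
    (I0 (3 * m) u - i - 1) % 3 = 0 ∧ (V0 n 1 + V1 n' 0 + 3 * V0 (3 * m) u) % 27 = 0 := by
  have a1 := sum01 hH hG hc n n' 1 0 hn hn'
  have a2 := sum01 hH hG hc (n + 3) (n' - 3) 1 0 (by omega) (by omega)
  obtain ⟨g1, k1, -, -⟩ := hG.1 n 1 (by omega)
  obtain ⟨-, -, g2, k2⟩ := hG.1 n' 0 (by omega)
  obtain ⟨g3, k3, -, -⟩ := hG.1 (n + 3) 1 (by omega)
  obtain ⟨-, -, g4, k4⟩ := hG.1 (n' - 3) 0 (by omega)
  have t1 := (hH n (3 * m) n' 1 u 0 (by linarith) (nae_b u)).swap.cross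
    (by omega) (by omega) (by omega)
  have t2 := (hH (n + 3) (3 * m) (n' - 3) 1 u 0 (by linarith) (nae_b u)).swap.cross
    (by omega) (by omega) (by omega)
  have d1 := (hG.2 (n + 3) n 1 1 (by omega) (by omega)).1
  have d2 := (hG.2 (n' - 3) n' 0 0 (by omega) (by omega)).2
  have r1 : (I0 (3 * m) u - I0 n 1 - 1) % 3 = (I0 (3 * m) u - i - 1) % 3 := by omega
  have r2 : (I0 (3 * m) u - I0 (n + 3) 1 - 1) % 3 = (I0 (3 * m) u - i - 1) % 3 := by omega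
  have r3 : (I0 (3 * m) u - I0 n 1) % 3 = (I0 (3 * m) u - i) % 3 := by omega
  have r4 : (I0 (3 * m) u - I0 (n + 3) 1) % 3 = (I0 (3 * m) u - i) % 3 := by omega
  rw [r1, r3] at t1
  rw [r2, r4] at t2
  exact arith_cross (by omega) (by omega) (by omega) (by omega) (by omega) (by omega) t1 t2

lemma diff_eq (hH : Hyp I0 V0 I1 V1) (hG : Good i I0 V0 I1 V1) {c : ℤ}
    (hc : V0 1 0 + V0 2 0 - 3 = 3 * c) (m n k : ℤ)
    (hm : (m - c) % 3 ≠ 0) (hn : n % 3 = 1) (hk : k % 3 = 2) (hs : n + k + 3 + 3 * m = 0) :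
    (V0 (n + 3) 1 - V0 n 1 - (V0 (k + 3) 0 - V0 k 0)) % 27 = 0 := by
  have b1 := (third1 hH hG hc m (n + 3) k 0 hm (by omega) hk (by linarith)).2
  have b2 := (third1 hH hG hc m n (k + 3) 0 hm hn (by omega) (by linarith)).2
  omega

lemma diff_nine (hH : Hyp I0 V0 I1 V1) (hG : Good i I0 V0 I1 V1) {c : ℤ}
    (hc : V0 1 0 + V0 2 0 - 3 = 3 * c) (n : ℤ) (hn : n % 3 = 1) :
    (V0 (n + 9) 1 - V0 n 1 - 9) % 27 = 0 := by
  have e1 := diff_eq hH hG hc (c + 2) n (-3 * c - 9 - n) (by omega) hn (by omega) (by ring)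
  have e2 := diff_eq hH hG hc (c + 1) (n + 3) (-3 * c - 9 - n) (by omega) (by omega) (by omega)
    (by ring)
  have e3 := diff_eq hH hG hc (c + 2) (n + 3) (-3 * c - 12 - n) (by omega) (by omega) (by omega)
    (by ring)
  have e4 := diff_eq hH hG hc (c + 1) (n + 3 + 3) (-3 * c - 12 - n) (by omega) (by omega)
    (by omega) (by ring)
  have d1 := (hG.2 (n + 3) n 1 1 (by omega) (by omega)).1
  have e5 : n + 3 + 3 + 3 = n + 9 := by ring
  rw [e5] at e4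
  have d2 : (V0 (n + 3) 1 - V0 n 1 - 3) % 9 = 0 := by
    have : n + 3 - n = 3 := by ring
    rwa [this] at d1
  exact arith_three e1 e2 e3 e4 d2

lemma diff_mul (hH : Hyp I0 V0 I1 V1) (hG : Good i I0 V0 I1 V1) {c : ℤ}
    (hc : V0 1 0 + V0 2 0 - 3 = 3 * c) (q n : ℤ) (hn : n % 3 = 1) :
    (V0 (n + 9 * q) 1 - V0 n 1 - 9 * q) % 27 = 0 := by
  induction q using Int.induction_on with
  | zero => simp
  | succ q ih =>
    have h1 := diff_nine hH hG hc (n + 9 * q) (by omega)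
    have e1 : n + 9 * (q : ℤ) + 9 = n + 9 * ((q : ℤ) + 1) := by ring
    rw [e1] at h1
    omega
  | pred q ih =>
    have h1 := diff_nine hH hG hc (n + 9 * (-(q : ℤ) - 1)) (by omega)
    have e1 : n + 9 * (-(q : ℤ) - 1) + 9 = n + 9 * (-(q : ℤ)) := by ring
    rw [e1] at h1
    omega

lemma step (hH : Hyp I0 V0 I1 V1) (hG : Good i I0 V0 I1 V1) :
    ∃ c : ℤ, Hyp (fun n s => I0 (3 * (c + n)) s) (fun n s => V0 (3 * (c + n)) s)
        (fun n s => I1 (3 * (n - 2 * c)) s) (fun n s => V1 (3 * (n - 2 * c)) s) ∧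
      Good (i + 1) (fun n s => I0 (3 * (c + n)) s) (fun n s => V0 (3 * (c + n)) s)
        (fun n s => I1 (3 * (n - 2 * c)) s) (fun n s => V1 (3 * (n - 2 * c)) s) := by
  -- the centre of the next scale
  obtain ⟨c, hc⟩ : ∃ c, V0 1 0 + V0 2 0 - 3 = 3 * c := by
    have h1 := (hG.1 1 0 (by norm_num)).2.1
    have h2 := (hG.1 2 0 (by norm_num)).2.1
    exact ⟨(V0 1 0 + V0 2 0 - 3) / 3, by omega⟩
  refine ⟨c, ?_, ?_, ?_⟩
  · intro n n' n'' s t u hs hN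
    exact hH _ _ _ _ _ _ (by linarith) hN
  · intro n s hn
    obtain ⟨f1, f2⟩ := third0 hH hG hc (c + n) 1 (-3 * (c + n) - 1) s (by omega) (by norm_num)
      (by omega) (by ring)
    have a1 := sum01 hH hG hc 1 (-3 * (c + n) - 1) 1 0 (by norm_num) (by omega)
    obtain ⟨b1, b2⟩ := third1 hH hG hc (n - 2 * c) 1 (-3 * (n - 2 * c) - 1) s (by omega)
      (by norm_num) (by omega) (by ring)
    have a2 := sum00 hG hc 1 (-3 * (n - 2 * c) - 1) 1 0 (by norm_num) (by omega)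
    refine ⟨?_, ?_, ?_, ?_⟩
    · show (I0 (3 * (c + n)) s - (i + 1)) % 3 = 0
      rw [← f1]; congr 1; ring
    · show (V0 (3 * (c + n)) s - n) % 3 = 0
      omega
    · show (I1 (3 * (n - 2 * c)) s - (i + 1)) % 3 = 0
      rw [← b1]; congr 1; ring
    · show (V1 (3 * (n - 2 * c)) s - n) % 3 = 0
      omega
  · intro n n2 s t hn hnn
    obtain ⟨q, hq⟩ : ∃ q, n = n2 + 3 * q := ⟨(n - n2) / 3, by omega⟩
    subst hq
    have hl := diff_mul hH hG hc q 1 (by norm_num)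
    have f1 := (third0 hH hG hc (c + (n2 + 3 * q)) 1 (-3 * (c + (n2 + 3 * q)) - 1) s
      (by omega) (by norm_num) (by omega) (by ring)).2
    have f2 := (third0 hH hG hc (c + n2) (1 + 9 * q) (-3 * (c + (n2 + 3 * q)) - 1) t
      (by omega) (by omega) (by omega) (by ring)).2
    have b1 := (third1 hH hG hc (n2 + 3 * q - 2 * c) 1 (-3 * (n2 + 3 * q - 2 * c) - 1) s
      (by omega) (by norm_num) (by omega) (by ring)).2
    have b2 := (third1 hH hG hc (n2 - 2 * c) (1 + 9 * q) (-3 * (n2 + 3 * q - 2 * c) - 1) t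
      (by omega) (by omega) (by omega) (by ring)).2
    refine ⟨?_, ?_⟩
    · show (V0 (3 * (c + (n2 + 3 * q))) s - V0 (3 * (c + n2)) t - (n2 + 3 * q - n2)) % 9 = 0
      clear b1 b2
      omega
    · show (V1 (3 * (n2 + 3 * q - 2 * c)) s - V1 (3 * (n2 - 2 * c)) t - (n2 + 3 * q - n2)) % 9 = 0
      clear f1 f2
      omega

end Step

/-- The slope is visible at every scale. -/
lemma all_scales (J : ℕ) : ∀ (i : ℤ) (I0 V0 I1 V1 : ℤ → Fin 2 → ℤ), Hyp I0 V0 I1 V1 →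
    Good i I0 V0 I1 V1 →
    ∃ C : ℤ, (V0 (C + 3 ^ J * 4) 0 - V0 (C + 3 ^ J) 0 - 3) % 9 = 0 := by
  induction J with
  | zero =>
    intro i I0 V0 I1 V1 _ hG
    have := (hG.2 4 1 0 0 (by norm_num) (by norm_num)).1
    exact ⟨0, by simpa using this⟩
  | succ J ih =>
    intro i I0 V0 I1 V1 hH hG
    obtain ⟨c, hH', hG'⟩ := step hH hG
    obtain ⟨C, hC⟩ := ih _ _ _ _ _ hH' hG'
    refine ⟨3 * (c + C), ?_⟩
    have e1 : 3 * (c + C) + 3 ^ (J + 1) * 4 = 3 * (c + (C + 3 ^ J * 4)) := by ring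
    have e2 : 3 * (c + C) + 3 ^ (J + 1) = 3 * (c + (C + 3 ^ J)) := by ring
    rw [e1, e2]
    exact hC

/-! ### The template -/

/-- The domain of the template: a residue modulo `27`, an index modulo `3`, and a unit part
modulo `27`. -/
abbrev Dom : Type := ZMod 27 × ZMod 3 × ZMod 27

/-- `c` is a colour of the integer `x`.  It records `x` modulo `27`.  If `x` is `0` or `1` modulo
`3`, it also records the colour of `x`, respectively `x - 1`. -/
def Col (x : ℤ) (c : Dom) : Prop :=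
  c.1 = (x : ZMod 27) ∧
  (x % 3 = 0 → ∃ j w, Dec x j w ∧ c.2.1 = (j : ZMod 3) ∧ c.2.2 = (w : ZMod 27)) ∧
  (x % 3 = 1 → ∃ j w, Dec (x - 1) j w ∧ c.2.1 = (j : ZMod 3) ∧ c.2.2 = (w : ZMod 27))

/-- The relation of the template: the colours of three integers with sum `1`. -/
def Rel (c1 c2 c3 : Dom) : Prop :=
  ∃ x1 x2 x3 : ℤ, x1 + x2 + x3 = 1 ∧ Col x1 c1 ∧ Col x2 c2 ∧ Col x3 c3

lemma exists_col (x : ℤ) (h0 : x ≠ 0) (h1 : x ≠ 1) : ∃ c, Col x c := by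
  by_cases hx0 : x % 3 = 0
  · obtain ⟨j, w, h⟩ := exists_dec h0
    exact ⟨((x : ZMod 27), (j : ZMod 3), (w : ZMod 27)), rfl, fun _ => ⟨j, w, h, rfl, rfl⟩,
      fun h2 => by omega⟩
  · by_cases hx1 : x % 3 = 1
    · obtain ⟨j, w, h⟩ := exists_dec (sub_ne_zero.2 h1)
      exact ⟨((x : ZMod 27), (j : ZMod 3), (w : ZMod 27)), rfl, fun h2 => by omega,
        fun _ => ⟨j, w, h, rfl, rfl⟩⟩
    · exact ⟨((x : ZMod 27), 0, 0), rfl, fun h2 => absurd h2 hx0, fun h2 => absurd h2 hx1⟩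

/-- The homomorphism from `Z` to the template. -/
lemma exists_hom_int : ∃ g : ℤ → Dom, ∀ x y z, x + y + z = 1 → Rel (g x) (g y) (g z) := by
  have h : ∀ x : ℤ, ∃ c, Col (4 * x - 1) c := fun x => exists_col _ (by omega) (by omega)
  choose g hg using h
  exact ⟨g, fun x y z hs => ⟨4 * x - 1, 4 * y - 1, 4 * z - 1, by linarith, hg x, hg y, hg z⟩⟩

lemma hasHom_oneInThree : HasHom OneInThree Rel := by
  obtain ⟨g, hg⟩ := exists_hom_int
  refine ⟨fun a => g (a.val : ℤ), ?_⟩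
  rintro a b c (⟨rfl, rfl, rfl⟩ | ⟨rfl, rfl, rfl⟩ | ⟨rfl, rfl, rfl⟩)
  · exact hg _ _ _ (by norm_num)
  · exact hg _ _ _ (by norm_num)
  · exact hg _ _ _ (by norm_num)

open Classical in
lemma aipSolves : AIPSolves OneInThree Rel := by
  intro X _ RX hX
  obtain ⟨g, hg⟩ := exists_hom_int
  obtain ⟨u, w, hu, hw, huw⟩ := hX
  refine ⟨fun x => g (u x 1), ?_⟩
  intro a b c habc
  apply hg
  have ht := huw ⟨![a, b, c], habc⟩
  have h0 := ht 0 1
  have h1 := ht 1 1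
  have h2 := ht 2 1
  have hs := hw ⟨![a, b, c], habc⟩
  simp only [Matrix.cons_val_zero, Matrix.cons_val_one, Matrix.cons_val] at h0 h1 h2
  rw [h0, h1, h2, ← Finset.sum_add_distrib, ← Finset.sum_add_distrib, ← hs]
  apply Finset.sum_congr rfl
  rintro ⟨s, hs3⟩ _
  rcases hs3 with ⟨e0, e1, e2⟩ | ⟨e0, e1, e2⟩ | ⟨e0, e1, e2⟩ <;> simp [e0, e1, e2]

/-! ### No homomorphism from `E_{3^p} × NAE` -/

lemma zmod_cast_eq_iff (n : ℕ) (a b : ℤ) : ((a : ZMod n) = (b : ZMod n)) ↔ (a - b) % n = 0 := by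
  rw [ZMod.intCast_eq_intCast_iff_dvd_sub, ← Int.dvd_iff_emod_eq_zero, ← dvd_neg]
  ring_nf

/-- A homomorphism from `Z × NAE` to the template. -/
def IntHom (Ψ : ℤ → Fin 2 → Dom) : Prop :=
  ∀ x y z s t u, x + y + z = 1 → NAE s t u → Rel (Ψ x s) (Ψ y t) (Ψ z u)

lemma exists_intHom {p : ℕ} (h : HasHom (ProdRel (E (3 ^ p)) NAE) Rel) :
    ∃ Ψ : ℤ → Fin 2 → Dom, IntHom Ψ ∧ ∀ x k s, Ψ (x + 3 ^ p * k) s = Ψ x s := by
  obtain ⟨Φ, hΦ⟩ := h
  have hM : (0 : ℤ) < ((3 ^ p : ℕ) : ℤ) := by positivity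
  have hlt : ∀ x : ℤ, (x % ((3 ^ p : ℕ) : ℤ)).toNat < 3 ^ p := by
    intro x
    have h1 := Int.emod_nonneg x hM.ne'
    have h2 := Int.emod_lt_of_pos x hM
    omega
  refine ⟨fun x s => Φ (⟨(x % ((3 ^ p : ℕ) : ℤ)).toNat, hlt x⟩, s), ?_, ?_⟩
  · intro x y z s t u hs hN
    refine hΦ _ _ _ ⟨?_, hN⟩
    show (x % ((3 ^ p : ℕ) : ℤ)).toNat + (y % ((3 ^ p : ℕ) : ℤ)).toNat +
      (z % ((3 ^ p : ℕ) : ℤ)).toNat ≡ 1 [MOD 3 ^ p]
    rw [← Int.natCast_modEq_iff]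
    push_cast
    have hM' : (3 ^ p : ℤ) ≠ 0 := by positivity
    rw [Int.toNat_of_nonneg (Int.emod_nonneg x hM'), Int.toNat_of_nonneg (Int.emod_nonneg y hM'),
      Int.toNat_of_nonneg (Int.emod_nonneg z hM')]
    have e1 : x % (3 ^ p : ℤ) ≡ x [ZMOD 3 ^ p] := Int.mod_modEq _ _
    have e2 : y % (3 ^ p : ℤ) ≡ y [ZMOD 3 ^ p] := Int.mod_modEq _ _
    have e3 : z % (3 ^ p : ℤ) ≡ z [ZMOD 3 ^ p] := Int.mod_modEq _ _
    have e4 := (e1.add e2).add e3
    rwa [hs] at e4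
  · intro x k s
    have e : (x + 3 ^ p * k) % ((3 ^ p : ℕ) : ℤ) = x % ((3 ^ p : ℕ) : ℤ) := by
      push_cast
      exact Int.add_mul_emod_self_left _ _ _
    simp only [e]

lemma Rel.sum {c1 c2 c3 : Dom} (h : Rel c1 c2 c3) : c1.1 + c2.1 + c3.1 = 1 := by
  obtain ⟨x1, x2, x3, hs, h1, h2, h3⟩ := h
  rw [h1.1, h2.1, h3.1]
  have : ((x1 + x2 + x3 : ℤ) : ZMod 27) = ((1 : ℤ) : ZMod 27) := by rw [hs]
  push_cast at this
  exact this

/-- After an affine change of variables the residue is the identity. -/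
lemma exists_normalised {M : ℤ} {Ψ : ℤ → Fin 2 → Dom} (h : IntHom Ψ)
    (hM : ∀ x k s, Ψ (x + M * k) s = Ψ x s) :
    ∃ Ψ' : ℤ → Fin 2 → Dom, IntHom Ψ' ∧ (∀ x k s, Ψ' (x + M * k) s = Ψ' x s) ∧
      ∀ x s, (Ψ' x s).1 = (x : ZMod 27) := by
  have hN1 : NAE 0 0 1 := by rintro ⟨-, h2⟩; exact absurd h2 (by decide)
  have hN2 : NAE 1 0 1 := by rintro ⟨h1, -⟩; exact absurd h1 (by decide)
  have hN3 : ∀ s : Fin 2, NAE s 0 1 := by
    intro s; fin_cases s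
    · exact hN1
    · exact hN2
  -- the residue does not depend on the second coordinate
  have hs : ∀ x s, (Ψ x s).1 = (Ψ x 0).1 := by
    intro x s
    have h1 := (h x 0 (1 - x) s 0 1 (by ring) (hN3 s)).sum
    have h2 := (h x 0 (1 - x) 0 0 1 (by ring) (hN3 0)).sum
    exact add_right_cancel (add_right_cancel (h1.trans h2.symm))
  have hadd : ∀ x y, (Ψ (x + y) 0).1 + (Ψ 0 0).1 = (Ψ x 0).1 + (Ψ y 0).1 := by
    intro x y
    have h1 := (h x y (1 - x - y) 0 0 1 (by ring) hN1).sum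
    have h2 := (h (x + y) 0 (1 - x - y) 0 0 1 (by ring) hN1).sum
    exact add_right_cancel (h2.trans h1.symm)
  have hone : (Ψ 0 0).1 + (Ψ 0 0).1 + (Ψ 1 0).1 = 1 := by
    have h1 := (h 0 0 1 0 0 1 (by ring) hN1).sum
    rwa [hs 1 1] at h1
  -- the residue is affine
  let g : ℤ →+ ZMod 27 :=
    { toFun := fun x => (Ψ x 0).1 - (Ψ 0 0).1
      map_zero' := sub_self _
      map_add' := by
        intro x y
        have := hadd x y
        linear_combination this }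
  have hg : ∀ x : ℤ, (Ψ x 0).1 = (Ψ 0 0).1 + (x : ZMod 27) * (1 - 3 * (Ψ 0 0).1) := by
    intro x
    have h1 : g x = x • g 1 := by
      rw [← map_zsmul, zsmul_eq_mul, mul_one]; rfl
    have h2 : (Ψ x 0).1 - (Ψ 0 0).1 = x • ((Ψ 1 0).1 - (Ψ 0 0).1) := h1
    rw [zsmul_eq_mul] at h2
    linear_combination h2 + (x : ZMod 27) * hone
  set r : ZMod 27 := (Ψ 0 0).1 with hr
  obtain ⟨T, hT⟩ : ∃ T : ℤ, (T : ZMod 27) = - r * (1 + 3 * r + 9 * r ^ 2) :=
    ZMod.intCast_surjective _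
  have h27 : (27 : ZMod 27) = 0 := by decide
  have hT2 : (T : ZMod 27) * (1 - 3 * r) = - r := by
    rw [hT]
    linear_combination (r ^ 4) * h27
  refine ⟨fun x s => Ψ (T + (1 - 3 * T) * x) s, ?_, ?_, ?_⟩
  · intro x y z s t u hxyz hN
    apply h _ _ _ _ _ _ _ hN
    linear_combination (1 - 3 * T) * hxyz
  · intro x k s
    have e : T + (1 - 3 * T) * (x + M * k) = T + (1 - 3 * T) * x + M * ((1 - 3 * T) * k) := by
      ring
    simp only [e]
    exact hM _ _ _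
  · intro x s
    show (Ψ (T + (1 - 3 * T) * x) s).1 = (x : ZMod 27)
    rw [hs, hg]
    push_cast
    linear_combination (1 - 3 * (x : ZMod 27)) * hT2

/-- The relation of the template, read on two copies of the integers. -/
lemma Rel.tri {c1 c2 c3 : Dom} (h : Rel c1 c2 c3) {n1 n2 n3 : ℤ}
    (h1 : c1.1 = ((3 * n1 : ℤ) : ZMod 27)) (h2 : c2.1 = ((3 * n2 : ℤ) : ZMod 27))
    (h3 : c3.1 = ((1 + 3 * n3 : ℤ) : ZMod 27)) :
    Tri (c1.2.1.val : ℤ) (c1.2.2.val : ℤ) (c2.2.1.val : ℤ) (c2.2.2.val : ℤ)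
      (c3.2.1.val : ℤ) (c3.2.2.val : ℤ) := by
  obtain ⟨x1, x2, x3, hs, k1, k2, k3⟩ := h
  have e1 := (zmod_cast_eq_iff 27 _ _).1 (k1.1.symm.trans h1)
  have e2 := (zmod_cast_eq_iff 27 _ _).1 (k2.1.symm.trans h2)
  have e3 := (zmod_cast_eq_iff 27 _ _).1 (k3.1.symm.trans h3)
  obtain ⟨j1, w1, d1, i1, v1⟩ := k1.2.1 (by omega)
  obtain ⟨j2, w2, d2, i2, v2⟩ := k2.2.1 (by omega)
  obtain ⟨j3, w3, d3, i3, v3⟩ := k3.2.2 (by omega)
  have key3 : ∀ (j : ℕ) (a : ZMod 3), a = (j : ZMod 3) → ((j : ℤ) - (a.val : ℤ)) % 3 = 0 := by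
    intro j a ha
    apply (zmod_cast_eq_iff 3 _ _).1
    push_cast
    rw [ZMod.natCast_zmod_val, ha]
  have key27 : ∀ (w : ℤ) (a : ZMod 27), a = (w : ZMod 27) → (w - (a.val : ℤ)) % 27 = 0 := by
    intro w a ha
    apply (zmod_cast_eq_iff 27 _ _).1
    push_cast
    rw [ZMod.natCast_zmod_val, ha]
  exact ⟨x1, x2, x3 - 1, w1, w2, w3, j1, j2, j3, d1, d2, d3, by linarith, key3 _ _ i1,
    key3 _ _ i2, key3 _ _ i3, key27 _ _ v1, key27 _ _ v2, key27 _ _ v3⟩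

/-- The colour is determined modulo `9` at the integers exactly divisible by `3`. -/
lemma base {y n w : ℤ} {j : ℕ} (h : Dec y j w) (hy : (y - 3 * n) % 27 = 0) (hn : n % 3 ≠ 0) :
    j = 1 ∧ (w - n) % 9 = 0 := by
  obtain ⟨k, hk⟩ : ∃ k, y = 3 * (n + 9 * k) := ⟨(y - 3 * n) / 27, by omega⟩
  have hd : Dec y 1 (n + 9 * k) := ⟨by rw [hk]; ring, by omega⟩
  obtain ⟨h1, h2⟩ := dec_unique h hd
  exact ⟨h1, by omega⟩

lemma no_hom (p : ℕ) : ¬ HasHom (ProdRel (E (3 ^ p)) NAE) Rel := by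
  intro h
  obtain ⟨Ψ₀, hΨ₀, hM₀⟩ := exists_intHom h
  obtain ⟨Ψ, hΨ, hM, hres⟩ := exists_normalised hΨ₀ hM₀
  set I0 : ℤ → Fin 2 → ℤ := fun n s => ((Ψ (3 * n) s).2.1.val : ℤ) with hI0
  set V0 : ℤ → Fin 2 → ℤ := fun n s => ((Ψ (3 * n) s).2.2.val : ℤ) with hV0
  set I1 : ℤ → Fin 2 → ℤ := fun n s => ((Ψ (1 + 3 * n) s).2.1.val : ℤ) with hI1
  set V1 : ℤ → Fin 2 → ℤ := fun n s => ((Ψ (1 + 3 * n) s).2.2.val : ℤ) with hV1
  have hHyp : Hyp I0 V0 I1 V1 := by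
    intro n n' n'' s t u hs hN
    exact (hΨ (3 * n) (3 * n') (1 + 3 * n'') s t u (by linarith) hN).tri (hres _ _) (hres _ _)
      (hres _ _)
  have hNs : ∀ s : Fin 2, NAE s s (1 - s) := by
    intro s h
    revert h
    fin_cases s <;> simp
  have hNs' : ∀ s : Fin 2, NAE s (1 - s) s := by
    intro s h
    revert h
    fin_cases s <;> simp
  have b0 : ∀ n s, n % 3 ≠ 0 → (I0 n s - 1) % 3 = 0 ∧ (V0 n s - n) % 9 = 0 := by
    intro n s hn
    obtain ⟨x1, x2, x3, hs, k1, k2, k3⟩ := hΨ (3 * n) 0 (1 - 3 * n) s s (1 - s) (by ring) (hNs s)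
    have e1 := (zmod_cast_eq_iff 27 _ _).1 (k1.1.symm.trans (hres _ _))
    obtain ⟨j, w, d, i1, v1⟩ := k1.2.1 (by omega)
    obtain ⟨hj, hw⟩ := base d e1 hn
    have g1 : ((1 : ℤ) - I0 n s) % 3 = 0 := by
      apply (zmod_cast_eq_iff 3 _ _).1
      rw [hI0]
      push_cast
      rw [ZMod.natCast_zmod_val, i1, hj]
      norm_num
    have g2 : (w - V0 n s) % 27 = 0 := by
      apply (zmod_cast_eq_iff 27 _ _).1
      rw [hV0]
      push_cast
      rw [ZMod.natCast_zmod_val, v1]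
    omega
  have b1 : ∀ n s, n % 3 ≠ 0 → (I1 n s - 1) % 3 = 0 ∧ (V1 n s - n) % 9 = 0 := by
    intro n s hn
    obtain ⟨x1, x2, x3, hs, k1, k2, k3⟩ := hΨ (1 + 3 * n) (- 3 * n) 0 s (1 - s) s (by ring)
      (hNs' s)
    have e1 := (zmod_cast_eq_iff 27 _ _).1 (k1.1.symm.trans (hres _ _))
    obtain ⟨j, w, d, i1, v1⟩ := k1.2.2 (by omega)
    obtain ⟨hj, hw⟩ := base d (by omega) hn
    have g1 : ((1 : ℤ) - I1 n s) % 3 = 0 := by
      apply (zmod_cast_eq_iff 3 _ _).1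
      rw [hI1]
      push_cast
      rw [ZMod.natCast_zmod_val, i1, hj]
      norm_num
    have g2 : (w - V1 n s) % 27 = 0 := by
      apply (zmod_cast_eq_iff 27 _ _).1
      rw [hV1]
      push_cast
      rw [ZMod.natCast_zmod_val, v1]
    omega
  have hGood : Good 1 I0 V0 I1 V1 := by
    refine ⟨?_, ?_⟩
    · intro n s hn
      have h0 := b0 n s hn
      have h1 := b1 n s hn
      omega
    · intro n n' s t hn hnn
      have h0 := b0 n s hn
      have h1 := b1 n s hn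
      have h0' := b0 n' t (by omega)
      have h1' := b1 n' t (by omega)
      omega
  obtain ⟨C, hC⟩ := all_scales p 1 I0 V0 I1 V1 hHyp hGood
  have hper : V0 (C + 3 ^ p * 4) 0 = V0 (C + 3 ^ p) 0 := by
    show ((Ψ (3 * (C + 3 ^ p * 4)) 0).2.2.val : ℤ) = ((Ψ (3 * (C + 3 ^ p)) 0).2.2.val : ℤ)
    have e : 3 * (C + 3 ^ p * 4) = 3 * (C + 3 ^ p) + 3 ^ p * 9 := by ring
    rw [e, hM]
  rw [hper] at hC
  omega

/-- **The conjecture on finite templates for AIP fails.**  There is a finite structure `B` with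
`1in3 → B` such that AIP solves `PCSP(1in3, B)` but there is no `p` with
`E_{3^p} × NAE → B`. -/
theorem result : ∃ (B : Type) (_ : Finite B) (RB : B → B → B → Prop),
    HasHom OneInThree RB ∧ AIPSolves OneInThree RB ∧
      ∀ p : ℕ, ¬ HasHom (ProdRel (E (3 ^ p)) NAE) RB :=
  ⟨Dom, inferInstance, Rel, hasHom_oneInThree, aipSolves, no_hom⟩

end Pool.Agent.Results.MP_981e77_lc.FiniteTemplatesFail
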